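import Mathlib

namespace Pool.Agent.Results.MP_09543b_pr.Line

open Finset

/-- The automaton distributional map on the state set `Fin k`. -/
noncomputable def psi {k : ℕ} (A : (Fin k → ℕ) → Fin k) (χ : ℕ → ℝ) (x : Fin k → ℝ)
    (σ : Fin k) : ℝ :=
  ∑' m : ℕ, χ m * ∑ n ∈ (Finset.Nat.antidiagonalTuple k m).filter (fun n => A n = σ),
    ((m.factorial : ℝ) / ∏ τ, ((n τ).factorial : ℝ)) * ∏ τ, x τ ^ n τ

/-- A child distribution: a probability vector on the naturals charging `{2,3,...}`. -/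
def IsChild (χ : ℕ → ℝ) : Prop :=
  (∀ m, 0 ≤ χ m) ∧ HasSum χ 1 ∧ ∃ m, 2 ≤ m ∧ 0 < χ m

def aut (n : Fin 4 → ℕ) : Fin 4 :=
  if n 0 = 2 ∨ n 1 = 2 ∨ (n 0 = 1 ∧ n 2 = 1) then 0
  else if (n 0 = 1 ∧ n 1 = 1) ∨ (n 0 = 1 ∧ n 3 = 1) then 1
  else if n 2 = 2 ∨ n 3 = 2 ∨ (n 1 = 1 ∧ n 2 = 1) then 2 else 3

def chi (m : ℕ) : ℝ := if m = 2 then 1 else 0

lemma f0 : (Finset.Nat.antidiagonalTuple 4 2).filter (fun n => aut n = 0)
    = {![2,0,0,0], ![0,2,0,0], ![1,0,1,0]} := by decide +kernel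
lemma f1 : (Finset.Nat.antidiagonalTuple 4 2).filter (fun n => aut n = 1)
    = {![1,1,0,0], ![1,0,0,1]} := by decide +kernel
lemma f2 : (Finset.Nat.antidiagonalTuple 4 2).filter (fun n => aut n = 2)
    = {![0,0,2,0], ![0,0,0,2], ![0,1,1,0]} := by decide +kernel
lemma f3 : (Finset.Nat.antidiagonalTuple 4 2).filter (fun n => aut n = 3)
    = {![0,0,1,1], ![0,1,0,1]} := by decide +kernel

lemma psi_eq (x : Fin 4 → ℝ) (σ : Fin 4) : psi aut chi x σ =
    ∑ n ∈ (Finset.Nat.antidiagonalTuple 4 2).filter (fun n => aut n = σ),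
      ((Nat.factorial 2 : ℝ) / ∏ τ, ((n τ).factorial : ℝ)) * ∏ τ, x τ ^ n τ := by
  unfold psi
  rw [tsum_eq_single 2]
  · simp [chi]
  · intro m hm
    simp [chi, hm]

noncomputable def pt (u : ℝ) : Fin 4 → ℝ := ![u, u, 1/2 - u, 1/2 - u]

lemma fixed (u : ℝ) : psi aut chi (pt u) = pt u := by
  funext σ
  rw [psi_eq]
  fin_cases σ
  · rw [show ((⟨0, by norm_num⟩ : Fin 4)) = 0 from rfl, f0,
      Finset.sum_insert (by decide), Finset.sum_pair (by decide)]
    simp [Fin.prod_univ_four, pt, Nat.factorial]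
    ring
  · rw [show ((⟨1, by norm_num⟩ : Fin 4)) = 1 from rfl, f1, Finset.sum_pair (by decide)]
    simp [Fin.prod_univ_four, pt, Nat.factorial]
    ring
  · rw [show ((⟨2, by norm_num⟩ : Fin 4)) = 2 from rfl, f2,
      Finset.sum_insert (by decide), Finset.sum_pair (by decide)]
    simp [Fin.prod_univ_four, pt, Nat.factorial]
    ring
  · rw [show ((⟨3, by norm_num⟩ : Fin 4)) = 3 from rfl, f3, Finset.sum_pair (by decide)]
    simp [Fin.prod_univ_four, pt, Nat.factorial]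
    ring

theorem result : ∃ (k : ℕ) (A : (Fin k → ℕ) → Fin k) (χ : ℕ → ℝ), 3 ≤ k ∧ IsChild χ ∧
    {x : Fin k → ℝ | x ∈ stdSimplex ℝ (Fin k) ∧ psi A χ x = x}.Infinite := by
  refine ⟨4, aut, chi, by norm_num, ⟨?_, ?_, 2, le_rfl, by simp [chi]⟩, ?_⟩
  · intro m
    unfold chi
    split_ifs <;> norm_num
  · have := hasSum_ite_eq (2 : ℕ) (1 : ℝ)
    exact this
  · have hinj : Set.InjOn pt (Set.Icc 0 (1/2)) := by
      intro a _ b _ h
      have := congrFun h 0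
      simpa [pt] using this
    have hinf : (Set.Icc (0:ℝ) (1/2)).Infinite := Set.Icc_infinite (by norm_num)
    refine (hinf.image hinj).mono ?_
    rintro _ ⟨u, hu, rfl⟩
    refine ⟨⟨?_, ?_⟩, fixed u⟩
    · intro i
      have h1 := hu.1
      have h2 := hu.2
      fin_cases i <;> simp [pt] <;> linarith
    · simp [Fin.sum_univ_four, pt]
      ring

end Pool.Agent.Results.MP_09543b_pr.Line
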